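import Pool.Agent.H.MP_48f3d1_lc.Two

/-! Systems of word equations of corank at most two. -/

namespace Pool.Agent.Results.MP_48f3d1_lc.CorankTwo

open Pool.Agent.H.MP_48f3d1_lc

/-- `X` is a solution of `S` in distinct nonempty words which, if the corank of `S` is two, do
not all commute with each other. -/
def Good {ι σ : Type} [Fintype ι] (S : Set (FreeMonoid ι × FreeMonoid ι))
    (X : ι → FreeMonoid σ) : Prop :=
  Function.Injective X ∧ (∀ i, X i ≠ 1) ∧ IsSol S (FreeMonoid.lift X) ∧
    (corank S = 2 → ∃ i j, X i * X j ≠ X j * X i)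

theorem rank_of_good {ι σ : Type} [Fintype ι] {S : Set (FreeMonoid ι × FreeMonoid ι)}
    (h2 : corank S ≤ 2) {X : ι → FreeMonoid σ} (h : Good S X) : RankGE (corank S) X := by
  obtain ⟨-, hne, -, hc⟩ := h
  intro T hT
  by_contra hcon
  push Not at hcon
  have hmem : ∀ i, emb σ (X i) ∈ grp X := fun i => Subgroup.subset_closure ⟨i, rfl⟩
  have hc1 : 1 ≤ corank S := by omega
  have hι : Nonempty ι := by
    rw [← Fintype.card_pos_iff]
    unfold corank at hc1
    omega
  rcases Nat.lt_or_ge T.card 1 with h0 | h1
  · have hT0 : T = ∅ := Finset.card_eq_zero.1 (by omega)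
    subst hT0
    obtain ⟨i⟩ := hι
    have h3 := hmem i
    rw [← hT, Finset.coe_empty, Subgroup.closure_empty, Subgroup.mem_bot] at h3
    exact hne i (emb_injective σ (by rw [h3, map_one]))
  · have hT1 : T.card = 1 := by omega
    obtain ⟨g, hg⟩ := Finset.card_eq_one.1 hT1
    obtain ⟨i, j, hij⟩ := hc (by omega)
    apply hij
    apply emb_injective σ
    rw [map_mul, map_mul]
    have hi := hmem i
    have hj := hmem j
    rw [← hT, hg, Finset.coe_singleton, Subgroup.mem_closure_singleton] at hi hj
    obtain ⟨m, hm⟩ := hi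
    obtain ⟨n, hn⟩ := hj
    rw [← hm, ← hn, ← zpow_add, ← zpow_add, add_comm]

theorem noncomm {ι σ : Type} [Fintype ι] {S : Set (FreeMonoid ι × FreeMonoid ι)}
    (h2 : 2 ≤ corank S) {X : ι → FreeMonoid σ} (h : FPresents S X) :
    ∃ i j, X i * X j ≠ X j * X i := by
  obtain ⟨-, hne, hS, heq⟩ := h
  by_contra hcon
  push Not at hcon
  have hpos : ∀ i, 0 < (X i).length := by
    intro i
    rcases Nat.eq_zero_or_pos (X i).length with h0 | h0
    · exact absurd (FreeMonoid.length_eq_zero.1 h0) (hne i)
    · exact h0
  obtain ⟨μ, hμ, i, j, hij⟩ := exists_mu S (fun i => (X i).length) hpos (by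
    intro e he
    rw [← len_length, ← len_length, hS e he]) h2
  have ha : ∃ a : σ, True := by
    have := hne i
    rcases hX : FreeMonoid.toList (X i) with _ | ⟨a, l⟩
    · exact absurd hX this
    · exact ⟨a, trivial⟩
  obtain ⟨a, -⟩ := ha
  have h3 : IsSol (rel X) (FreeMonoid.lift fun i => FreeMonoid.of a ^ μ i) := by
    apply (heq _).1
    intro e he
    rw [one_letter, one_letter, hμ e he]
  have h4 := h3 (FreeMonoid.of i ^ (X j).length, FreeMonoid.of j ^ (X i).length) (by
    change FreeMonoid.lift X _ = FreeMonoid.lift X _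
    rw [map_pow, map_pow, FreeMonoid.lift_eval_of, FreeMonoid.lift_eval_of]
    exact comm_pow _ _ (hcon i j))
  rw [map_pow, map_pow, FreeMonoid.lift_eval_of, FreeMonoid.lift_eval_of, ← pow_mul,
    ← pow_mul] at h4
  have h5 : ∀ n : ℕ, (FreeMonoid.of a ^ n).length = n := by
    intro n
    induction n with
    | zero => simp
    | succ n ih => rw [pow_succ, FreeMonoid.length_mul, ih, FreeMonoid.length_of]
  have h6 := congrArg FreeMonoid.length h4
  rw [h5, h5] at h6
  exact hij h6

/-- Let `S` be a system of word equations (possibly infinite) over a finite set of unknowns, of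
corank at most two: the number of unknowns minus the rank of the abelianised system is at most
two. Then `S` F-presents the words `X` if and only if `X` is a solution of `S` in distinct
nonempty words which, if the corank is two, do not all commute. So `S` is an F-presentation if
and only if it has such a solution. -/
theorem result {ι σ : Type} [Fintype ι] (S : Set (FreeMonoid ι × FreeMonoid ι))
    (h2 : corank S ≤ 2) :
    (∀ X : ι → FreeMonoid σ, FPresents S X ↔ Good S X) ∧
    (IsFPresentation σ S ↔ ∃ X : ι → FreeMonoid σ, Good S X) := by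
  have key : ∀ X : ι → FreeMonoid σ, FPresents S X ↔ Good S X := by
    intro X
    constructor
    · intro h
      exact ⟨h.1, h.2.1, h.2.2.1, fun hc => noncomm hc.ge h⟩
    · intro h
      refine ⟨h.1, h.2.1, h.2.2.1, fun f => ⟨fun hf e he => ?_, fun hf e he => ?_⟩⟩
      · exact full S X h.2.2.1 (rank_of_good h2 h) f hf e.1 e.2 he
      · exact hf e (h.2.2.1 e he)
  exact ⟨key, exists_congr key⟩

end Pool.Agent.Results.MP_48f3d1_lc.CorankTwo
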