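import Pool.Agent.H.MP_48f3d1_lc.Par

/-! A system of word equations with a solution of full rank. -/

namespace Pool.Agent.Results.MP_48f3d1_lc.FullRank

open Pool.Agent.H.MP_48f3d1_lc

/-- Let `X` be a solution of the system `S` in words over `σ`, such that the words `X i` generate
a subgroup of the free group of rank at least `corank S`, for example such that the Parikh
matrix of `X` has rank at least `corank S`. Then every relation of `X` holds for every solution
of `S` in a free group, `S` is equivalent to the system of all relations of `X` over every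
alphabet, and `S` is an F-presentation if and only if the words `X i` are distinct and nonempty;
if they are, `S` F-presents `X`. -/
theorem result {ι σ : Type} [Fintype ι] (S : Set (FreeMonoid ι × FreeMonoid ι))
    (X : ι → FreeMonoid σ) (hX : IsSol S (FreeMonoid.lift X))
    (hr : RankGE (corank S) X ∨
      corank S ≤ Module.finrank ℚ (Submodule.span ℚ (Set.range fun i => parikh (X i)))) :
    (∀ (τ : Type) (h : FreeMonoid ι →* FreeGroup τ), (∀ e ∈ S, h e.1 = h e.2) →
      ∀ e ∈ rel X, h e.1 = h e.2) ∧
    (∀ τ : Type, Equivalent τ S (rel X)) ∧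
    (Function.Injective X → (∀ i, X i ≠ 1) → FPresents S X) ∧
    (∀ τ : Type, IsFPresentation τ S → Function.Injective X ∧ ∀ i, X i ≠ 1) := by
  have hr' : RankGE (corank S) X := hr.elim id (rank_of_parikh _ _)
  have hfree : ∀ (τ : Type) (h : FreeMonoid ι →* FreeGroup τ), (∀ e ∈ S, h e.1 = h e.2) →
      ∀ e ∈ rel X, h e.1 = h e.2 := by
    intro τ h hh e he
    let φ : FreeGroup ι →* FreeGroup τ := FreeGroup.lift fun i => h (FreeMonoid.of i)
    have hφ : ∀ w, φ (emb ι w) = h w := by
      intro w
      have : φ.comp (emb ι) = h := by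
        apply FreeMonoid.hom_eq
        intro i
        simp [φ, emb]
      exact DFunLike.congr_fun this w
    have h1 := ker_le S X hX hr' φ (by
      rintro _ ⟨e, he, rfl⟩
      rw [map_mul, map_inv, hφ, hφ, hh e he, mul_inv_cancel])
    have he' : FreeMonoid.lift X e.1 = FreeMonoid.lift X e.2 := he
    have h2 : emb ι e.1 * (emb ι e.2)⁻¹ ∈ (gh X).ker := by
      rw [MonoidHom.mem_ker, map_mul, map_inv, gh_emb, gh_emb, he', mul_inv_cancel]
    have h3 := h1 h2
    rw [MonoidHom.mem_ker, map_mul, map_inv, hφ, hφ, mul_inv_eq_one] at h3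
    exact h3
  have heq : ∀ τ : Type, Equivalent τ S (rel X) := by
    intro τ h
    constructor
    · intro hh e he
      exact full S X hX hr' h hh e.1 e.2 he
    · intro hh e he
      exact hh e (hX e he)
  refine ⟨hfree, heq, fun h1 h2 => ⟨h1, h2, hX, heq σ⟩, ?_⟩
  rintro τ ⟨Y, h1, h2, h3, -⟩
  have key : ∀ u v : FreeMonoid ι, FreeMonoid.lift X u = FreeMonoid.lift X v →
      FreeMonoid.lift Y u = FreeMonoid.lift Y v := fun u v huv => full S X hX hr' _ h3 u v huv
  constructor
  · intro i j hij
    apply h1
    have := key (FreeMonoid.of i) (FreeMonoid.of j) (by simpa using hij)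
    simpa using this
  · intro i hi
    apply h2 i
    have := key (FreeMonoid.of i) 1 (by simpa using hi)
    simpa using this

end Pool.Agent.Results.MP_48f3d1_lc.FullRank
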