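import Pool.Agent.H.MP_48f3d1_lc.Cyc.Main

/-! Sets of `n` words whose free hull has rank at least `n - 1`, and systems in at most three
unknowns. -/

namespace Pool.Agent.Results.MP_48f3d1_lc.HullRank

open Pool.Agent.H.MP_48f3d1_lc

/-- the solution `X` of `S` consists of distinct nonempty words which, if the corank of `S` is
two, do not all commute with each other -/
def Good {ι σ : Type} [Fintype ι] (S : Set (FreeMonoid ι × FreeMonoid ι))
    (X : ι → FreeMonoid σ) : Prop :=
  Function.Injective X ∧ (∀ i, X i ≠ 1) ∧ IsSol S (FreeMonoid.lift X) ∧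
    (corank S = 2 → ∃ i j, X i * X j ≠ X j * X i)

theorem hull_two {ι σ : Type} {X : ι → FreeMonoid σ} (h : ∃ i j, X i * X j ≠ X j * X i) :
    HullGE 2 X := by
  obtain ⟨i, j, hij⟩ := h
  rintro T ⟨-, hT, -⟩
  by_contra hcon
  push Not at hcon
  rcases Nat.lt_or_ge T.card 1 with h0 | h1
  · have hT0 : T = ∅ := Finset.card_eq_zero.1 (by omega)
    have h2 := hT i
    rw [hT0, Finset.coe_empty, Submonoid.closure_empty, Submonoid.mem_bot] at h2
    exact hij (by rw [h2, one_mul, mul_one])
  · obtain ⟨g, hg⟩ := Finset.card_eq_one.1 (by omega : T.card = 1)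
    have hi := hT i
    have hj := hT j
    rw [hg, Finset.coe_singleton, Submonoid.mem_closure_singleton] at hi hj
    obtain ⟨m, hm⟩ := hi
    obtain ⟨n, hn⟩ := hj
    exact hij (by rw [← hm, ← hn, ← pow_add, ← pow_add, add_comm])

theorem hull_one {ι σ : Type} {X : ι → FreeMonoid σ} {i : ι} (h : X i ≠ 1) : HullGE 1 X := by
  rintro T ⟨-, hT, -⟩
  by_contra hcon
  have hT0 : T = ∅ := Finset.card_eq_zero.1 (by omega)
  have h2 := hT i
  rw [hT0, Finset.coe_empty, Submonoid.closure_empty, Submonoid.mem_bot] at h2
  exact h h2

theorem noncomm {ι σ : Type} [Fintype ι] {S : Set (FreeMonoid ι × FreeMonoid ι)}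
    (h2 : 2 ≤ corank S) {X : ι → FreeMonoid σ} (h : FPresents S X) :
    ∃ i j, X i * X j ≠ X j * X i := by
  obtain ⟨-, hne, hS, heq⟩ := h
  by_contra hcon
  push Not at hcon
  have hpos : ∀ i, 0 < (X i).length := by
    intro i
    rcases Nat.eq_zero_or_pos (X i).length with h0 | h0
    · exact absurd (FreeMonoid.length_eq_zero.1 h0) (hne i)
    · exact h0
  obtain ⟨μ, hμ, i, j, hij⟩ := exists_mu S (fun i => (X i).length) hpos (by
    intro e he
    rw [← len_length, ← len_length, hS e he]) h2
  have ha : ∃ a : σ, True := by
    have := hne i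
    rcases hX : FreeMonoid.toList (X i) with _ | ⟨a, l⟩
    · exact absurd hX this
    · exact ⟨a, trivial⟩
  obtain ⟨a, -⟩ := ha
  have h3 : IsSol (rel X) (FreeMonoid.lift fun i => FreeMonoid.of a ^ μ i) := by
    apply (heq _).1
    intro e he
    rw [one_letter, one_letter, hμ e he]
  have h4 := h3 (FreeMonoid.of i ^ (X j).length, FreeMonoid.of j ^ (X i).length) (by
    change FreeMonoid.lift X _ = FreeMonoid.lift X _
    rw [map_pow, map_pow, FreeMonoid.lift_eval_of, FreeMonoid.lift_eval_of]
    exact comm_pow _ _ (hcon i j))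
  rw [map_pow, map_pow, FreeMonoid.lift_eval_of, FreeMonoid.lift_eval_of, ← pow_mul,
    ← pow_mul] at h4
  have h5 : ∀ n : ℕ, (FreeMonoid.of a ^ n).length = n := by
    intro n
    induction n with
    | zero => simp
    | succ n ih => rw [pow_succ, FreeMonoid.length_mul, ih, FreeMonoid.length_of]
  have h6 := congrArg FreeMonoid.length h4
  rw [h5, h5] at h6
  exact hij h6

theorem large {ι σ : Type} [Fintype ι] (S : Set (FreeMonoid ι × FreeMonoid ι))
    (X : ι → FreeMonoid σ) (hr : HullGE (Fintype.card ι - 1) X) :
    FPresents S X ↔ Function.Injective X ∧ (∀ i, X i ≠ 1) ∧ IsSol S (FreeMonoid.lift X) ∧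
      ((∃ e ∈ S, diff e ≠ 0) ∨ ((∀ e ∈ S, e.1 = e.2) ∧ ∀ e ∈ rel X, e.1 = e.2)) := by
  constructor
  · rintro ⟨h1, h2, h3, h4⟩
    refine ⟨h1, h2, h3, ?_⟩
    by_cases h5 : ∃ e ∈ S, diff e ≠ 0
    · exact Or.inl h5
    · right
      push Not at h5
      have h6 : ∀ e ∈ rel X, e.1 = e.2 := by
        intro e he
        by_contra hne
        obtain ⟨e', h7, h8⟩ := Cyc.unbalanced_hull X h2 hr he hne
        apply h8
        have ha : ∃ a : σ, True := by
          by_contra hcon
          push Not at hcon
          have hemp : IsEmpty σ := ⟨fun a => hcon a⟩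
          apply h8
          have hι : IsEmpty ι := by
            constructor
            intro i
            apply h2 i
            rcases hX : FreeMonoid.toList (X i) with _ | ⟨a, l⟩
            · exact hX
            · exact isEmptyElim a
          ext i
          exact isEmptyElim i
        obtain ⟨a, -⟩ := ha
        exact Cyc.not_consequence a h5 fun h hh => (h4 h).1 hh e' h7
      exact ⟨fun e he => h6 e (h3 e he), h6⟩
  · rintro ⟨h1, h2, h3, h4⟩
    refine ⟨h1, h2, h3, ?_⟩
    rcases h4 with ⟨e, he, hd⟩ | ⟨h4, h5⟩
    · exact Cyc.full_hull S X h2 h3 (Cyc.HullGE.mono hr (Cyc.corank_le he hd)) σ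
    · intro h
      constructor
      · intro _ e he
        rw [h5 e he]
      · intro _ e he
        rw [h4 e he]

/-- the free hull of nonempty words exists and is finitely generated -/
theorem exists_hull {ι σ : Type} [Fintype ι] (X : ι → FreeMonoid σ) (hX : ∀ i, X i ≠ 1) :
    ∃ T : Finset (FreeMonoid σ), IsHull X (Submonoid.closure (T : Set (FreeMonoid σ))) := by
  classical
  obtain ⟨κ, hκ, θ, Y, h1, h2, h3, -⟩ := Cyc.hull X hX
  refine ⟨Finset.univ.image Y, ?_⟩
  have hcl : Submonoid.closure ((Finset.univ.image Y : Finset (FreeMonoid σ)) :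
      Set (FreeMonoid σ)) = MonoidHom.mrange (FreeMonoid.lift Y) := by
    rw [Finset.coe_image, Finset.coe_univ, Set.image_univ, FreeMonoid.mrange_lift]
  rw [hcl]
  refine ⟨⟨κ, _, h1, rfl⟩, fun i => ⟨θ i, h2 i⟩, ?_⟩
  intro M hM h6
  rw [← hcl, Submonoid.closure_le, Finset.coe_image, Finset.coe_univ, Set.image_univ]
  rintro _ ⟨k, rfl⟩
  exact h3 M hM h6 k

/-- The free hull of finitely many nonempty words exists and is finitely generated, and its rank
is at least the rank of the subgroup of the free group which they generate. Let `X` be a family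
of `n` words whose free hull has rank at least `n - 1`.

1. If the words are nonempty and satisfy a nontrivial relation, then they satisfy an unbalanced
relation, and each unbalanced relation is equivalent to the system of all relations, over every
alphabet.
2. A system `S` F-presents `X` if and only if `X` is a solution of `S` in distinct nonempty words
and either `S` contains an unbalanced equation or `S` and all relations of `X` are trivial.
3. Over an alphabet with at least two letters, a system `S` in at most three unknowns is an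
F-presentation if and only if it is trivial, or contains an unbalanced equation and has a
solution in distinct nonempty words which, if the corank of `S` is two, do not all commute. -/
theorem result {ι σ : Type} [Fintype ι] :
    (∀ X : ι → FreeMonoid σ, (∀ i, X i ≠ 1) →
      (∃ T : Finset (FreeMonoid σ), IsHull X (Submonoid.closure (T : Set (FreeMonoid σ)))) ∧
        ∀ d : ℕ, RankGE d X → HullGE d X) ∧
    (∀ X : ι → FreeMonoid σ, (∀ i, X i ≠ 1) → HullGE (Fintype.card ι - 1) X →
      (∃ e ∈ rel X, e.1 ≠ e.2) →
      (∃ e ∈ rel X, diff e ≠ 0) ∧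
        ∀ e ∈ rel X, diff e ≠ 0 → ∀ τ : Type, Equivalent τ {e} (rel X)) ∧
    (∀ (S : Set (FreeMonoid ι × FreeMonoid ι)) (X : ι → FreeMonoid σ),
      HullGE (Fintype.card ι - 1) X →
      (FPresents S X ↔ Function.Injective X ∧ (∀ i, X i ≠ 1) ∧ IsSol S (FreeMonoid.lift X) ∧
        ((∃ e ∈ S, diff e ≠ 0) ∨ ((∀ e ∈ S, e.1 = e.2) ∧ ∀ e ∈ rel X, e.1 = e.2)))) ∧
    (Nontrivial σ → Fintype.card ι ≤ 3 → ∀ S : Set (FreeMonoid ι × FreeMonoid ι),
      (IsFPresentation σ S ↔ (∀ e ∈ S, e.1 = e.2) ∨
        ((∃ e ∈ S, diff e ≠ 0) ∧ ∃ X : ι → FreeMonoid σ, Good S X))) := by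
  refine ⟨fun X hX => ⟨exists_hull X hX, fun d hd => Cyc.hullGE_of_rankGE X hX hd⟩, ?_, large, ?_⟩
  · rintro X hne hr ⟨e, he, hne'⟩
    refine ⟨Cyc.unbalanced_hull X hne hr he hne', ?_⟩
    intro e' he' hd τ
    refine Cyc.full_hull {e'} X hne ?_ (Cyc.HullGE.mono hr (Cyc.corank_le rfl hd)) τ
    intro e'' he''
    rw [Set.mem_singleton_iff] at he''
    rw [he'']
    exact he'
  · intro hσ h3 S
    constructor
    · rintro ⟨X, hX⟩
      by_cases h4 : ∃ e ∈ S, diff e ≠ 0
      · right
        exact ⟨h4, X, hX.1, hX.2.1, hX.2.2.1, fun hc => noncomm hc.ge hX⟩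
      · left
        have h5 : ∀ e ∈ S, diff e = 0 := by
          intro e he
          by_contra hne
          exact h4 ⟨e, he, hne⟩
        have hco : corank S = Fintype.card ι := by
          unfold corank
          have h6 : Submodule.span ℚ (diff '' S) = ⊥ := by
            rw [Submodule.span_eq_bot]
            rintro _ ⟨e, he, rfl⟩
            exact h5 e he
          rw [h6, finrank_bot, Nat.sub_zero]
        have hr : HullGE (Fintype.card ι - 1) X := by
          rcases Nat.lt_or_ge (Fintype.card ι) 2 with h6 | h6
          · intro T _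
            omega
          · rcases Nat.lt_or_ge (Fintype.card ι) 3 with h7 | h7
            · obtain ⟨i, -, -⟩ := noncomm (by omega) hX
              exact Cyc.HullGE.mono (hull_one (hX.2.1 i)) (by omega)
            · exact Cyc.HullGE.mono (hull_two (noncomm (by omega) hX)) (by omega)
        rcases ((large S X hr).1 hX).2.2.2 with h6 | h6
        · exact absurd h6 h4
        · exact h6.1
    · rintro (h4 | ⟨⟨e, he, hd⟩, X, hX⟩)
      · -- a code
        obtain ⟨a, b, hab⟩ := exists_pair_ne σ
        let e : ι → ℕ := fun i => (Fintype.equivFin ι i : ℕ)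
        have he : Function.Injective e := fun i j hij =>
          (Fintype.equivFin ι).injective (Fin.ext hij)
        have hc := Lin.code_injective e he hab
        let X : ι → FreeMonoid σ := fun i =>
          FreeMonoid.ofList (List.replicate (e i) a ++ [b])
        have hX : ∀ u v : FreeMonoid ι, FreeMonoid.lift X u = FreeMonoid.lift X v → u = v := by
          intro u v huv
          have h1 := Lin.lift_flat (fun i => List.replicate (e i) a ++ [b])
            (FreeMonoid.toList u)
          have h2 := Lin.lift_flat (fun i => List.replicate (e i) a ++ [b])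
            (FreeMonoid.toList v)
          rw [FreeMonoid.ofList_toList] at h1 h2
          have h3 : FreeMonoid.lift X u = FreeMonoid.lift X v := huv
          rw [h1, h2] at h3
          exact FreeMonoid.toList.injective (hc (FreeMonoid.ofList.injective h3))
        refine ⟨X, ?_, ?_, ?_, ?_⟩
        · intro i j hij
          have h1 := hX (FreeMonoid.of i) (FreeMonoid.of j) (by
            rw [FreeMonoid.lift_eval_of, FreeMonoid.lift_eval_of]
            exact hij)
          exact FreeMonoid.of_injective h1
        · intro i hi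
          have h1 := congrArg (fun w => (FreeMonoid.toList w).length) hi
          simp [X] at h1
        · intro e' he'
          rw [h4 e' he']
        · intro h
          constructor
          · intro _ e' he'
            rw [hX _ _ he']
          · intro _ e' he'
            rw [h4 e' he']
      · have h5 := Cyc.corank_le he hd
        refine ⟨X, hX.1, hX.2.1, hX.2.2.1, Cyc.full_hull S X hX.2.1 hX.2.2.1 ?_ σ⟩
        rcases Nat.lt_or_ge (corank S) 2 with h6 | h6
        · rcases Nat.lt_or_ge (corank S) 1 with h7 | h7
          · intro T _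
            omega
          · have hι : 0 < Fintype.card ι := by
              unfold corank at h7
              omega
            obtain ⟨i⟩ := Fintype.card_pos_iff.1 hι
            exact Cyc.HullGE.mono (hull_one (hX.2.1 i)) (by omega)
        · exact Cyc.HullGE.mono (hull_two (hX.2.2.2 (by omega))) (by omega)

end Pool.Agent.Results.MP_48f3d1_lc.HullRank
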