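import Pool.Agent.H.MP_48f3d1_lc.Lin.Class

/-! The F-presentations among the equations in which no unknown is repeated on a side. -/

namespace Pool.Agent.Results.MP_48f3d1_lc.NoRepetition

open Pool.Agent.H.MP_48f3d1_lc

/-- The three conditions on the words `u`, `v`:

* one of the sets of unknowns of `u`, `v` is not a proper subset of the other;
* there are no factors `PQR` of `u` and `RQP` of `v`, with nonempty `P`, `R`, at corresponding
  positions: the parts of `u` and `v` before them, or the parts after them, consist of the same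
  unknowns;
* there are no different unknowns `p` in `u` and `q` in `v` at corresponding positions: the parts
  of `u` and `v` before them, and the parts after them, consist of the same unknowns. -/
def Cond {ι : Type} (u v : List ι) : Prop :=
  (u ⊆ v ↔ v ⊆ u) ∧
  (∀ l m r l' m' r' : List ι, u = l ++ m ++ r → v = l' ++ m' ++ r' →
    (l.Perm l' ∨ r.Perm r') →
    ¬ ∃ P Q R : List ι, m = P ++ Q ++ R ∧ m' = R ++ Q ++ P ∧ P ≠ [] ∧ R ≠ []) ∧
  (∀ (l : List ι) (p : ι) (r l' : List ι) (q : ι) (r' : List ι), u = l ++ p :: r →
    v = l' ++ q :: r' → l.Perm l' → r.Perm r' → p = q)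

/-- Let `u` and `v` be words over a finite set of unknowns, each without repeated letters. Over
an alphabet with at least two letters the equation `u = v` is an F-presentation if and only if
`Cond u v` holds. If it holds, then there are distinct nonempty words `X i` such that the
equation F-presents `X` and has the same solutions as the system of all relations of `X` over
every alphabet. -/
theorem result {ι σ : Type} [Finite ι] [Nontrivial σ] (u v : List ι) (hu : u.Nodup)
    (hv : v.Nodup) :
    (IsFPresentation σ {(FreeMonoid.ofList u, FreeMonoid.ofList v)} ↔ Cond u v) ∧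
    (Cond u v → ∃ X : ι → FreeMonoid σ,
      FPresents {(FreeMonoid.ofList u, FreeMonoid.ofList v)} X ∧
      ∀ τ : Type, Equivalent τ {(FreeMonoid.ofList u, FreeMonoid.ofList v)} (rel X)) := by
  have h1 : Cond u v → ∃ X : ι → FreeMonoid σ,
      FPresents {(FreeMonoid.ofList u, FreeMonoid.ofList v)} X ∧
      ∀ τ : Type, Equivalent τ {(FreeMonoid.ofList u, FreeMonoid.ofList v)} (rel X) := by
    rintro ⟨h2, h3, h4⟩
    exact Lin.suff hu hv h2 h3 h4
  refine ⟨⟨?_, ?_⟩, h1⟩
  · rintro ⟨X, hX⟩
    have hsol : FreeMonoid.lift X (FreeMonoid.ofList u) =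
        FreeMonoid.lift X (FreeMonoid.ofList v) := hX.2.2.1 _ rfl
    exact ⟨⟨Lin.nec_sub X hu hX.2.1 hsol, Lin.nec_sub X hv hX.2.1 hsol.symm⟩,
      Lin.nec_C X hu hv hX, Lin.nec_P X hX.1 hsol⟩
  · intro h
    obtain ⟨X, hX, -⟩ := h1 h
    exact ⟨X, hX⟩

end Pool.Agent.Results.MP_48f3d1_lc.NoRepetition
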